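import Mathlib

set_option autoImplicit false
open MeasureTheory

namespace Pool.Agent.Helper67.W

abbrev Space := EuclideanSpace ℝ (Fin 3)

/-- Local integrability of power-type radial functions. -/
lemma radial_integrable {f : ℝ → ℝ} (hf : IntegrableOn (fun y : ℝ => y ^ 2 * f y) (Set.Ioi 0)) :
    Integrable (fun x : Space => f ‖x‖) := by
  rw [integrable_fun_norm_addHaar (volume : Measure Space) (f := f)]
  simpa using hf

/-- the weight function `1 / (r (1 + r))`. -/
noncomputable def wt (r : ℝ) : ℝ := 1 / (r * (1 + r))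

lemma wt_nonneg {r : ℝ} (hr : 0 ≤ r) : 0 ≤ wt r := by
  unfold wt
  positivity

lemma wt_integrable : Integrable (fun x : Space => (wt ‖x‖) ^ (5 / 2 : ℝ)) := by
  apply radial_integrable (f := fun r => (wt r) ^ (5 / 2 : ℝ))
  have h1 : IntegrableOn (fun y : ℝ => y ^ 2 * (wt y) ^ (5 / 2 : ℝ)) (Set.Ioc 0 1) := by
    have hb : IntegrableOn (fun y : ℝ => y ^ (-(1 / 2) : ℝ)) (Set.Ioc 0 1) := by
      have := (intervalIntegral.intervalIntegrable_rpow' (a := 0) (b := 1) (r := -(1/2 : ℝ))
        (by norm_num))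
      rw [intervalIntegrable_iff_integrableOn_Ioc_of_le (by norm_num)] at this
      exact this
    refine Integrable.mono' hb ?_ ?_
    · apply Measurable.aestronglyMeasurable
      unfold wt
      fun_prop
    · rw [ae_restrict_iff' measurableSet_Ioc]
      refine Filter.Eventually.of_forall fun y hy => ?_
      have hy0 : 0 < y := hy.1
      rw [Real.norm_of_nonneg (by have := wt_nonneg hy0.le; positivity)]
      have e1 : wt y ≤ 1 / y := by
        unfold wt
        apply one_div_le_one_div_of_le hy0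
        nlinarith
      have e2 : (wt y) ^ (5 / 2 : ℝ) ≤ (1 / y) ^ (5 / 2 : ℝ) :=
        Real.rpow_le_rpow (wt_nonneg hy0.le) e1 (by norm_num)
      calc y ^ 2 * (wt y) ^ (5 / 2 : ℝ) ≤ y ^ 2 * (1 / y) ^ (5 / 2 : ℝ) := by gcongr
        _ = y ^ (-(1 / 2) : ℝ) := by
          rw [one_div, Real.inv_rpow hy0.le, ← Real.rpow_neg hy0.le, ← Real.rpow_natCast,
            ← Real.rpow_add hy0]
          norm_num
  have h2 : IntegrableOn (fun y : ℝ => y ^ 2 * (wt y) ^ (5 / 2 : ℝ)) (Set.Ioi 1) := by
    have hb : IntegrableOn (fun y : ℝ => y ^ (-3 : ℝ)) (Set.Ioi 1) :=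
      integrableOn_Ioi_rpow_of_lt (by norm_num) (by norm_num)
    refine Integrable.mono' hb ?_ ?_
    · apply Measurable.aestronglyMeasurable
      unfold wt
      fun_prop
    · rw [ae_restrict_iff' measurableSet_Ioi]
      refine Filter.Eventually.of_forall fun y hy => ?_
      have hy1 : 1 < y := hy
      have hy0 : 0 < y := by linarith
      rw [Real.norm_of_nonneg (by have := wt_nonneg hy0.le; positivity)]
      have e1 : wt y ≤ 1 / (y * y) := by
        unfold wt
        apply one_div_le_one_div_of_le (by positivity)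
        nlinarith
      have e2 : (wt y) ^ (5 / 2 : ℝ) ≤ (1 / (y * y)) ^ (5 / 2 : ℝ) :=
        Real.rpow_le_rpow (wt_nonneg hy0.le) e1 (by norm_num)
      calc y ^ 2 * (wt y) ^ (5 / 2 : ℝ) ≤ y ^ 2 * (1 / (y * y)) ^ (5 / 2 : ℝ) := by gcongr
        _ = y ^ (-3 : ℝ) := by
          have : y * y = y ^ (2 : ℝ) := by
            rw [← sq]; exact (Real.rpow_natCast y 2).symm
          rw [one_div, this, ← Real.rpow_neg hy0.le, ← Real.rpow_mul hy0.le, ← Real.rpow_natCast,
            ← Real.rpow_add hy0]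
          norm_num
  rw [← Set.Ioc_union_Ioi_eq_Ioi (zero_le_one' ℝ)]
  exact h1.union h2

end Pool.Agent.Helper67.W
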