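import Pool.Agent.Helper67.W.TF1

set_option autoImplicit false
open MeasureTheory

namespace Pool.Agent.Helper67.W

/-- truncated Coulomb kernel -/
noncomputable def hc (x : Space) : ℝ := (Metric.ball (0 : Space) 1).indicator (fun x => ‖x‖⁻¹) x

lemma hc_nonneg (x : Space) : 0 ≤ hc x := by
  unfold hc
  apply Set.indicator_nonneg
  intro x _
  positivity

lemma hc_measurable : Measurable hc := by
  unfold hc
  exact Measurable.indicator (by fun_prop) measurableSet_ball

lemma inv_norm_le_hc (x : Space) : ‖x‖⁻¹ ≤ hc x + 1 := by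
  unfold hc
  by_cases h : x ∈ Metric.ball (0 : Space) 1
  · rw [Set.indicator_of_mem h]
    linarith
  · rw [Set.indicator_of_notMem h]
    have : 1 ≤ ‖x‖ := by simpa using h
    have := inv_le_one_of_one_le₀ this
    linarith

lemma hc_pow_integrable : Integrable (fun x : Space => (hc x) ^ (5 / 2 : ℝ)) := by
  have h0 : (fun x : Space => (hc x) ^ (5 / 2 : ℝ)) =
      (Metric.ball (0 : Space) 1).indicator (fun x => (‖x‖⁻¹) ^ (5 / 2 : ℝ)) := by
    funext x
    unfold hc
    by_cases h : x ∈ Metric.ball (0 : Space) 1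
    · rw [Set.indicator_of_mem h, Set.indicator_of_mem h]
    · rw [Set.indicator_of_notMem h, Set.indicator_of_notMem h]
      exact Real.zero_rpow (by norm_num)
  rw [h0, integrable_indicator_iff measurableSet_ball]
  rw [integrableOn_fun_norm_addHaar (volume : Measure Space)
    (f := fun r : ℝ => (r⁻¹) ^ (5 / 2 : ℝ)) (r := 1)]
  have hb : IntegrableOn (fun y : ℝ => y ^ (-(1 / 2) : ℝ)) (Set.Ioo 0 1) := by
    have := (intervalIntegral.intervalIntegrable_rpow' (a := 0) (b := 1) (r := -(1/2 : ℝ))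
      (by norm_num))
    rw [intervalIntegrable_iff_integrableOn_Ioc_of_le (by norm_num)] at this
    exact this.mono_set Set.Ioo_subset_Ioc_self
  refine (integrableOn_congr_fun ?_ measurableSet_Ioo).mpr hb
  intro y hy
  have hy0 : 0 < y := hy.1
  simp only [smul_eq_mul]
  rw [Real.inv_rpow hy0.le, ← Real.rpow_neg hy0.le]
  have : Module.finrank ℝ Space - 1 = 2 := by simp
  rw [this, ← Real.rpow_natCast, ← Real.rpow_add hy0]
  norm_num

/-- Young's inequality with exponents 5/3 and 5/2. -/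
lemma young (a b : ℝ) (ha : 0 ≤ a) (hb : 0 ≤ b) :
    a * b ≤ 3 / 5 * a ^ (5 / 3 : ℝ) + 2 / 5 * b ^ (5 / 2 : ℝ) := by
  have h := Real.young_inequality_of_nonneg ha hb
    (p := 5 / 3) (q := 5 / 2) (by constructor <;> norm_num)
  refine h.trans (le_of_eq ?_)
  ring

variable {ρ : Space → ℝ}

/-- the Coulomb potential of an admissible density is bounded. -/
lemma pot_integrable (h0 : ∀ x, 0 ≤ ρ x) (h1 : Integrable ρ)
    (h2 : Integrable (fun x => (ρ x) ^ (5 / 3 : ℝ))) (x : Space) :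
    Integrable (fun y => ρ y / ‖x - y‖) ∧
    ∫ y, ρ y / ‖x - y‖ ≤ 3 / 5 * (∫ y, (ρ y) ^ (5 / 3 : ℝ)) + 2 / 5 * (∫ y, (hc y) ^ (5 / 2 : ℝ))
      + ∫ y, ρ y := by
  have hh : Integrable (fun y : Space => (hc (x - y)) ^ (5 / 2 : ℝ)) :=
    hc_pow_integrable.comp_sub_left x
  have hg : Integrable (fun y => 3 / 5 * (ρ y) ^ (5 / 3 : ℝ) + 2 / 5 * (hc (x - y)) ^ (5 / 2 : ℝ)
      + ρ y) := ((h2.const_mul _).add (hh.const_mul _)).add h1
  have hle : ∀ y, ρ y / ‖x - y‖ ≤
      3 / 5 * (ρ y) ^ (5 / 3 : ℝ) + 2 / 5 * (hc (x - y)) ^ (5 / 2 : ℝ) + ρ y := by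
    intro y
    have e1 := inv_norm_le_hc (x - y)
    have e2 := young (ρ y) (hc (x - y)) (h0 y) (hc_nonneg _)
    rw [div_eq_mul_inv]
    calc ρ y * ‖x - y‖⁻¹ ≤ ρ y * (hc (x - y) + 1) := mul_le_mul_of_nonneg_left e1 (h0 y)
      _ = ρ y * hc (x - y) + ρ y := by ring
      _ ≤ _ := by linarith
  have hI : Integrable (fun y => ρ y / ‖x - y‖) := by
    refine Integrable.mono' hg ?_ (Filter.Eventually.of_forall fun y => ?_)
    · have : AEStronglyMeasurable (fun y : Space => ‖x - y‖⁻¹) volume := by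
        apply Measurable.aestronglyMeasurable
        fun_prop
      exact (h1.aestronglyMeasurable.mul this).congr
        (Filter.Eventually.of_forall fun y => by simp [div_eq_mul_inv])
    · rw [Real.norm_of_nonneg (div_nonneg (h0 y) (norm_nonneg _))]
      exact hle y
  refine ⟨hI, (integral_mono hI hg hle).trans (le_of_eq ?_)⟩
  have i1 : Integrable (fun y => 3 / 5 * (ρ y) ^ (5 / 3 : ℝ)) := h2.const_mul _
  have i2 : Integrable (fun y => 2 / 5 * (hc (x - y)) ^ (5 / 2 : ℝ)) := hh.const_mul _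
  have i3 : Integrable (fun y => 3 / 5 * (ρ y) ^ (5 / 3 : ℝ) + 2 / 5 * (hc (x - y)) ^ (5 / 2 : ℝ)) :=
    i1.add i2
  rw [integral_add i3 h1, integral_add i1 i2, integral_const_mul, integral_const_mul]
  rw [integral_sub_left_eq_self (fun y => (hc y) ^ (5 / 2 : ℝ)) volume x]

lemma dbl_integrable (h0 : ∀ x, 0 ≤ ρ x) (h1 : Integrable ρ)
    (h2 : Integrable (fun x => (ρ x) ^ (5 / 3 : ℝ))) :
    Integrable (fun x => ∫ y, ρ x * ρ y / ‖x - y‖) := by
  set C : ℝ := 3 / 5 * (∫ y, (ρ y) ^ (5 / 3 : ℝ)) + 2 / 5 * (∫ y, (hc y) ^ (5 / 2 : ℝ))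
      + ∫ y, ρ y with hC
  refine Integrable.mono' (h1.mul_const C) ?_ (Filter.Eventually.of_forall fun x => ?_)
  · have hm : AEStronglyMeasurable (fun p : Space × Space => ρ p.1 * ρ p.2 / ‖p.1 - p.2‖)
        (volume.prod volume) := by
      have m1 : AEStronglyMeasurable (fun p : Space × Space => ρ p.1) (volume.prod volume) :=
        h1.aestronglyMeasurable.comp_fst
      have m2 : AEStronglyMeasurable (fun p : Space × Space => ρ p.2) (volume.prod volume) :=
        h1.aestronglyMeasurable.comp_snd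
      have m3 : AEStronglyMeasurable (fun p : Space × Space => ‖p.1 - p.2‖⁻¹)
          (volume.prod volume) := by
        apply Measurable.aestronglyMeasurable
        fun_prop
      exact ((m1.mul m2).mul m3).congr
        (Filter.Eventually.of_forall fun y => by simp [div_eq_mul_inv])
    exact hm.integral_prod_right'
  · have e : ∀ y, ρ x * ρ y / ‖x - y‖ = ρ x * (ρ y / ‖x - y‖) := fun y => by ring
    simp_rw [e]
    rw [integral_const_mul, norm_mul, Real.norm_of_nonneg (h0 x)]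
    apply mul_le_mul_of_nonneg_left _ (h0 x)
    rw [Real.norm_of_nonneg (integral_nonneg fun y => div_nonneg (h0 y) (norm_nonneg _))]
    exact (pot_integrable h0 h1 h2 x).2

/-- Lower bound of the direct Coulomb energy by a rank one form. -/
lemma direct_lower (h0 : ∀ x, 0 ≤ ρ x) (h1 : Integrable ρ)
    (h2 : Integrable (fun x => (ρ x) ^ (5 / 3 : ℝ))) {T : ℝ} (hT : 0 < T) :
    T * (∫ x, ρ x / (1 + T * ‖x‖)) ^ 2 ≤ ∫ x, ∫ y, ρ x * ρ y / ‖x - y‖ := by
  have hG : Integrable (fun x : Space => ρ x / (1 + T * ‖x‖)) := by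
    refine Integrable.mono' h1 ?_ (Filter.Eventually.of_forall fun x => ?_)
    · have : AEStronglyMeasurable (fun y : Space => (1 + T * ‖y‖)⁻¹) volume := by
        apply Measurable.aestronglyMeasurable
        fun_prop
      exact (h1.aestronglyMeasurable.mul this).congr
        (Filter.Eventually.of_forall fun y => by simp [div_eq_mul_inv])
    · rw [Real.norm_of_nonneg (div_nonneg (h0 x) (by positivity))]
      apply div_le_self (h0 x)
      have : 0 ≤ T * ‖x‖ := by positivity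
      linarith
  set G := ∫ x, ρ x / (1 + T * ‖x‖) with hGdef
  have e1 : T * G ^ 2 = ∫ x, T * G * (ρ x / (1 + T * ‖x‖)) := by
    rw [integral_const_mul]
    ring
  rw [e1]
  apply integral_mono (hG.const_mul _) (dbl_integrable h0 h1 h2)
  intro x
  have e2 : T * G * (ρ x / (1 + T * ‖x‖)) =
      ∫ y, (T * (ρ x / (1 + T * ‖x‖))) * (ρ y / (1 + T * ‖y‖)) := by
    rw [integral_const_mul]
    ring
  simp only
  rw [e2]
  have hI : Integrable (fun y => ρ x * ρ y / ‖x - y‖) := by
    have := (pot_integrable h0 h1 h2 x).1.const_mul (ρ x)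
    exact this.congr (Filter.Eventually.of_forall fun y => by ring)
  apply integral_mono_ae (hG.const_mul _) hI
  have hne : ∀ᵐ y : Space, y ≠ x := by
    rw [ae_iff]
    simp
  filter_upwards [hne] with y hy
  have hpos : 0 < ‖x - y‖ := norm_pos_iff.mpr (sub_ne_zero.mpr (Ne.symm hy))
  have htri : ‖x - y‖ ≤ ‖x‖ + ‖y‖ := norm_sub_le x y
  have e3 : T / ((1 + T * ‖x‖) * (1 + T * ‖y‖)) ≤ 1 / ‖x - y‖ := by
    rw [div_le_div_iff₀ (by positivity) hpos]
    have hx := norm_nonneg x
    have hy := norm_nonneg y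
    have : 0 ≤ (T * ‖x‖) * (T * ‖y‖) := by positivity
    nlinarith
  have e4 : 0 ≤ ρ x * ρ y := mul_nonneg (h0 x) (h0 y)
  calc T * (ρ x / (1 + T * ‖x‖)) * (ρ y / (1 + T * ‖y‖))
      = (ρ x * ρ y) * (T / ((1 + T * ‖x‖) * (1 + T * ‖y‖))) := by
        field_simp
    _ ≤ (ρ x * ρ y) * (1 / ‖x - y‖) := mul_le_mul_of_nonneg_left e3 e4
    _ = ρ x * ρ y / ‖x - y‖ := by ring

end Pool.Agent.Helper67.W
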