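import Pool.Agent.Helper67.W.TF2

set_option autoImplicit false
open MeasureTheory

namespace Pool.Agent.Helper67.W

/-- Lower bound for the Thomas-Fermi functional of a single nucleus. -/
theorem tf_lower {γ T : ℝ} (hγ : 0 < γ) (hT : 0 < T) :
    ∃ C : ℝ, 0 ≤ C ∧ ∀ (z : ℝ) (ρ : Space → ℝ), 0 ≤ z → (∀ x, 0 ≤ ρ x) → Integrable ρ →
      Integrable (fun x => (ρ x) ^ (5 / 3 : ℝ)) →
      -(T / 2 * z ^ 2) - C * z ^ (5 / 2 : ℝ) ≤
        γ * (∫ x, (ρ x) ^ (5 / 3 : ℝ)) - (∫ x, z / ‖x‖ * ρ x)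
          + 1 / 2 * ∫ x, ∫ y, ρ x * ρ y / ‖x - y‖ := by
  set θ : ℝ := (5 / 3 * γ) ^ (3 / 5 : ℝ) with hθ
  have hθ0 : 0 < θ := Real.rpow_pos_of_pos (by positivity) _
  have hθ1 : θ ^ (5 / 3 : ℝ) = 5 / 3 * γ := by
    rw [hθ, ← Real.rpow_mul (by positivity)]
    norm_num
  have hw : Integrable (fun x : Space => (wt (T * ‖x‖)) ^ (5 / 2 : ℝ)) := by
    have := wt_integrable.comp_smul hT.ne'
    refine this.congr (Filter.Eventually.of_forall fun x => ?_)
    simp only [norm_smul, Real.norm_of_nonneg hT.le]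
  refine ⟨2 / 5 * (T / θ) ^ (5 / 2 : ℝ) * ∫ x : Space, (wt (T * ‖x‖)) ^ (5 / 2 : ℝ), ?_, ?_⟩
  · have : 0 ≤ ∫ x : Space, (wt (T * ‖x‖)) ^ (5 / 2 : ℝ) :=
      integral_nonneg fun x => Real.rpow_nonneg (wt_nonneg (by positivity)) _
    positivity
  intro z ρ hz h0 h1 h2
  set G := ∫ x, ρ x / (1 + T * ‖x‖) with hGdef
  have hG : Integrable (fun x : Space => ρ x / (1 + T * ‖x‖)) := by
    refine Integrable.mono' h1 ?_ (Filter.Eventually.of_forall fun x => ?_)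
    · have : AEStronglyMeasurable (fun y : Space => (1 + T * ‖y‖)⁻¹) volume := by
        apply Measurable.aestronglyMeasurable
        fun_prop
      exact (h1.aestronglyMeasurable.mul this).congr
        (Filter.Eventually.of_forall fun y => by simp [div_eq_mul_inv])
    · rw [Real.norm_of_nonneg (div_nonneg (h0 x) (by positivity))]
      apply div_le_self (h0 x)
      have : 0 ≤ T * ‖x‖ := by positivity
      linarith
  have hV : Integrable (fun x => z / ‖x‖ * ρ x) := by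
    have := (pot_integrable h0 h1 h2 0).1.const_mul z
    refine this.congr (Filter.Eventually.of_forall fun y => ?_)
    simp only [zero_sub, norm_neg]
    ring
  have hD := direct_lower h0 h1 h2 hT
  rw [← hGdef] at hD
  have hsq : T * z * G - T / 2 * z ^ 2 ≤ 1 / 2 * (T * G ^ 2) := by
    nlinarith [mul_nonneg hT.le (sq_nonneg (G - z))]
  -- the pointwise inequality
  have hpt : ∀ᵐ x : Space, z / ‖x‖ * ρ x ≤ γ * (ρ x) ^ (5 / 3 : ℝ) + T * z * (ρ x / (1 + T * ‖x‖))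
      + 2 / 5 * (T / θ) ^ (5 / 2 : ℝ) * z ^ (5 / 2 : ℝ) * (wt (T * ‖x‖)) ^ (5 / 2 : ℝ) := by
    have hne : ∀ᵐ x : Space, x ≠ 0 := by
      rw [ae_iff]
      simp
    filter_upwards [hne] with x hx
    have hr : 0 < ‖x‖ := norm_pos_iff.mpr hx
    have e1 : z / ‖x‖ * ρ x = T * z * (ρ x / (1 + T * ‖x‖)) +
        (θ * ρ x) * (T / θ * z * wt (T * ‖x‖)) := by
      unfold wt
      field_simp
      ring
    have e2 := young (θ * ρ x) (T / θ * z * wt (T * ‖x‖)) (mul_nonneg hθ0.le (h0 x))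
      (mul_nonneg (by positivity) (wt_nonneg (by positivity)))
    rw [Real.mul_rpow hθ0.le (h0 x), hθ1, Real.mul_rpow (by positivity)
      (wt_nonneg (by positivity)), Real.mul_rpow (by positivity) hz] at e2
    rw [e1]
    linarith
  have hI : ∫ x, z / ‖x‖ * ρ x ≤ ∫ x : Space, (γ * (ρ x) ^ (5 / 3 : ℝ) +
      T * z * (ρ x / (1 + T * ‖x‖))
      + 2 / 5 * (T / θ) ^ (5 / 2 : ℝ) * z ^ (5 / 2 : ℝ) * (wt (T * ‖x‖)) ^ (5 / 2 : ℝ)) :=
    integral_mono_ae hV (((h2.const_mul _).add (hG.const_mul _)).add (hw.const_mul _)) hpt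
  have i1 : Integrable (fun x => γ * (ρ x) ^ (5 / 3 : ℝ)) := h2.const_mul _
  have i2 : Integrable (fun x : Space => T * z * (ρ x / (1 + T * ‖x‖))) := hG.const_mul _
  have i3 : Integrable (fun x : Space =>
      γ * (ρ x) ^ (5 / 3 : ℝ) + T * z * (ρ x / (1 + T * ‖x‖))) := i1.add i2
  have i4 : Integrable (fun x : Space =>
    2 / 5 * (T / θ) ^ (5 / 2 : ℝ) * z ^ (5 / 2 : ℝ) * (wt (T * ‖x‖)) ^ (5 / 2 : ℝ)) :=
      hw.const_mul _
  rw [integral_add i3 i4, integral_add i1 i2, integral_const_mul, integral_const_mul,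
    integral_const_mul] at hI
  rw [← hGdef] at hI
  have e5 : 2 / 5 * (T / θ) ^ (5 / 2 : ℝ) * z ^ (5 / 2 : ℝ) *
      (∫ x : Space, (wt (T * ‖x‖)) ^ (5 / 2 : ℝ)) =
      2 / 5 * (T / θ) ^ (5 / 2 : ℝ) * (∫ x : Space, (wt (T * ‖x‖)) ^ (5 / 2 : ℝ)) *
        z ^ (5 / 2 : ℝ) := by ring
  rw [e5] at hI
  linarith

end Pool.Agent.Helper67.W
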